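import Mathlib
import Pool.Agent.Lib_helper12.ExpPoly
import Pool.Agent.Lib_helper12.Orbit

/-!
# Weak numerical hypercyclicity on `ℂ^n` forces one of the spectral conditions (C1)-(C4)
-/

open Filter Topology Polynomial Module
open scoped ComplexConjugate

universe u

namespace Pool.Agent.Results.MP_fe3f7a_an.Necessity

/-- `T` is numerically hypercyclic: for some pair `(x, f)` with `‖x‖ = ‖f‖ = f x = 1` the numerical
orbit `{f (T^k x) : k ∈ ℕ}` is dense in `ℂ`. -/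
def NumericallyHypercyclic {X : Type u} [NormedAddCommGroup X] [NormedSpace ℂ X]
    (T : X →L[ℂ] X) : Prop :=
  ∃ (x : X) (f : X →L[ℂ] ℂ), ‖x‖ = 1 ∧ ‖f‖ = 1 ∧ f x = 1 ∧
    Dense (Set.range fun k : ℕ => f ((T ^ k) x))

/-- `T` is weakly numerically hypercyclic: it is similar (through a linear topological isomorphism
onto some Banach space) to a numerically hypercyclic operator. -/
def WeaklyNumericallyHypercyclic {X : Type u} [NormedAddCommGroup X] [NormedSpace ℂ X]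
    (T : X →L[ℂ] X) : Prop :=
  ∃ (Y : Type u) (_ : NormedAddCommGroup Y) (_ : NormedSpace ℂ Y) (_ : CompleteSpace Y)
    (J : X ≃L[ℂ] Y) (S : Y →L[ℂ] Y), NumericallyHypercyclic S ∧
      ∀ x : X, T x = J.symm (S (J x))

/-- Independence of two complex numbers (of modulus one): no nontrivial monomial in them is `1`. -/
def Indep (z w : ℂ) : Prop := ∀ a b : ℤ, z ^ a * w ^ b = 1 → a = 0 ∧ b = 0

/-- `z` has infinite order in the multiplicative group. -/
def InfOrder (z : ℂ) : Prop := ∀ n : ℕ, 1 ≤ n → z ^ n ≠ 1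

/-- `z / |z|`. -/
noncomputable def dir (z : ℂ) : ℂ := z / (‖z‖ : ℂ)

/-- `ker (T - z)^2 ≠ ker (T - z)`. -/
def JordanAt {V : Type u} [AddCommGroup V] [Module ℂ V] (T : End ℂ V) (z : ℂ) : Prop :=
  LinearMap.ker ((T - z • (1 : End ℂ V)) ^ 2) ≠ LinearMap.ker (T - z • (1 : End ℂ V))

/-- Condition (C1). -/
def C1 {V : Type u} [AddCommGroup V] [Module ℂ V] (T : End ℂ V) : Prop :=
  ∃ l1 l2 : ℂ, T.HasEigenvalue l1 ∧ T.HasEigenvalue l2 ∧ ‖l1‖ = ‖l2‖ ∧ 1 < ‖l2‖ ∧
    Indep (dir l1) (dir l2)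

/-- Condition (C2). -/
def C2 {V : Type u} [AddCommGroup V] [Module ℂ V] (T : End ℂ V) : Prop :=
  ∃ l1 l2 : ℂ, ‖l1‖ = 1 ∧ ‖l2‖ = 1 ∧ Indep l1 l2 ∧ JordanAt T l1 ∧ JordanAt T l2

/-- Condition (C3). -/
def C3 {V : Type u} [AddCommGroup V] [Module ℂ V] (T : End ℂ V) : Prop :=
  ∃ l1 l2 l3 : ℂ, T.HasEigenvalue l1 ∧ T.HasEigenvalue l2 ∧ T.HasEigenvalue l3 ∧
    ‖l1‖ = ‖l2‖ ∧ ‖l3‖ < ‖l2‖ ∧ 1 < ‖l3‖ ∧ InfOrder (l1 / l2) ∧ Indep (dir l1) (dir l3)

/-- Condition (C4). -/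
def C4 {V : Type u} [AddCommGroup V] [Module ℂ V] (T : End ℂ V) : Prop :=
  ∃ l1 l2 l3 : ℂ, T.HasEigenvalue l1 ∧ T.HasEigenvalue l2 ∧ ‖l3‖ = 1 ∧ JordanAt T l3 ∧
    ‖l1‖ = ‖l2‖ ∧ 1 < ‖l2‖ ∧ InfOrder (l1 / l2) ∧ Indep (dir l1) l3

section Aux

open Pool.Agent.Lib_helper12.ExpPoly Pool.Agent.Lib_helper12.Orbit

theorem norm_dir {z : ℂ} (hz : z ≠ 0) : ‖dir z‖ = 1 := by
  unfold dir
  rw [norm_div, Complex.norm_real, norm_norm, div_self (norm_ne_zero_iff.mpr hz)]

theorem dir_ne_zero {z : ℂ} (hz : z ≠ 0) : dir z ≠ 0 := by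
  intro h
  have := norm_dir hz
  rw [h] at this
  simp at this

theorem eq_norm_mul_dir {z : ℂ} (hz : z ≠ 0) : z = (‖z‖ : ℂ) * dir z := by
  unfold dir
  have : (‖z‖ : ℂ) ≠ 0 := by exact_mod_cast norm_ne_zero_iff.mpr hz
  field_simp

theorem dir_of_norm_one {z : ℂ} (hz : ‖z‖ = 1) : dir z = z := by
  unfold dir; rw [hz]; simp

theorem exists_common {I : Type*} (S : Finset I) (p : I → ℕ → Prop)
    (hmono : ∀ i b j, p i b → p i (b * j)) :
    ∃ N : ℕ, 1 ≤ N ∧ ∀ i ∈ S, (∃ b, 1 ≤ b ∧ p i b) → p i N := by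
  classical
  let n : I → ℕ := fun i => if h : ∃ b, 1 ≤ b ∧ p i b then h.choose else 1
  have hn : ∀ i, 1 ≤ n i := by
    intro i
    by_cases h : ∃ b, 1 ≤ b ∧ p i b
    · simp only [n, dif_pos h]; exact h.choose_spec.1
    · simp only [n, dif_neg h]; exact le_refl 1
  refine ⟨∏ i ∈ S, n i, Finset.one_le_prod' fun i _ => hn i, fun i hi h => ?_⟩
  have h1 : p i (n i) := by
    simp only [n, dif_pos h]; exact h.choose_spec.2
  rw [← Finset.mul_prod_erase S n hi]
  exact hmono _ _ _ h1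

/-- Dependence with an element of infinite order. -/
theorem dep_of_not_indep {z w : ℂ} (hw0 : w ≠ 0) (hz : InfOrder z)
    (h : ¬ Indep z w) : ∃ b : ℕ, 1 ≤ b ∧ ∃ e : ℤ, w ^ b = z ^ e := by
  unfold Indep at h
  push Not at h
  obtain ⟨a, b, hab, hne⟩ := h
  have hb : b ≠ 0 := by
    intro hb
    have ha : a ≠ 0 := fun ha => hne ha hb
    rw [hb, zpow_zero, mul_one] at hab
    obtain ⟨n, hn | hn⟩ := a.eq_nat_or_neg
    · rw [hn, zpow_natCast] at hab
      exact hz n (by omega) hab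
    · rw [hn, zpow_neg, zpow_natCast, inv_eq_one] at hab
      exact hz n (by omega) hab
  obtain ⟨n, hn | hn⟩ := b.eq_nat_or_neg
  · refine ⟨n, by omega, -a, ?_⟩
    rw [hn, zpow_natCast] at hab
    rw [zpow_neg]
    exact eq_inv_of_mul_eq_one_right hab
  · refine ⟨n, by omega, a, ?_⟩
    rw [hn, zpow_neg, zpow_natCast] at hab
    have : w ^ n ≠ 0 := pow_ne_zero _ hw0
    field_simp at hab
    exact hab.symm

/-- Exponential polynomials whose frequencies generate a group of rank at most one. -/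
theorem algClusters_of_freq (N : Finset ℂ) (R : ℂ → ℂ[X]) (w : ℂ) (hw : ‖w‖ = 1)
    (h : ∀ v ∈ N, R v ≠ 0 → v ≠ 0 ∧ ∃ e : ℤ, v = (‖v‖ : ℂ) * w ^ e) :
    AlgClusters (fun m => ∑ v ∈ N, v ^ m * (R v).eval (m : ℂ)) := by
  classical
  choose! hv0 e he using h
  have hw0 : w ≠ 0 := by rintro rfl; simp at hw
  let J : Finset (Σ _ : ℂ, ℕ) := (N.filter fun v => R v ≠ 0).sigma
    fun v => Finset.range ((R v).natDegree + 1)
  have key := algClusters_of_rank_one J (fun i => (R i.1).coeff i.2)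
    (fun i => (Real.log ‖i.1‖, i.2)) (fun i => e i.1) w hw
  convert key using 2 with m
  rw [← Finset.sum_filter_add_sum_filter_not N (fun v => R v ≠ 0)]
  have hz : ∑ v ∈ N.filter (fun v => ¬ R v ≠ 0), v ^ m * (R v).eval (m : ℂ) = 0 := by
    refine Finset.sum_eq_zero fun v hv => ?_
    have := (Finset.mem_filter.mp hv).2
    push Not at this
    rw [this]; simp
  rw [hz, add_zero, Finset.sum_sigma]
  refine Finset.sum_congr rfl fun v hv => ?_
  obtain ⟨hvN, hRv⟩ := Finset.mem_filter.mp hv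
  rw [eval_eq_sum_range, Finset.mul_sum]
  refine Finset.sum_congr rfl fun d _ => ?_
  have hn : 0 < ‖v‖ := norm_pos_iff.mpr (hv0 v hvN hRv)
  have h1 : v ^ m = (Real.exp (Real.log ‖v‖ * m) : ℂ) * (w ^ m) ^ (e v) := by
    conv_lhs => rw [he v hvN hRv]
    rw [mul_pow, mul_comm (Real.log ‖v‖), Real.exp_nat_mul, Real.exp_log hn]
    push_cast
    congr 1
    rw [← zpow_natCast (w ^ e v), ← zpow_natCast w, ← zpow_mul, ← zpow_mul, mul_comm]
  rw [h1]
  simp only [mono]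
  ring

/-- A dense sequence in `ℂ` clusters everywhere at infinity. -/
theorem exists_ultrafilter_of_dense (S : ℕ → ℂ) (hd : Dense (Set.range S)) (y : ℂ) :
    ∃ F : Ultrafilter ℕ, (F : Filter ℕ) ≤ atTop ∧ Tendsto S F (𝓝 y) := by
  rw [← mapClusterPt_iff_ultrafilter, mapClusterPt_iff_frequently]
  intro s hs
  rw [frequently_atTop]
  intro k0
  have h1 : Dense (Set.range S \ (S '' Set.Iio k0)) := hd.sdiff_finite ((Set.finite_Iio k0).image S)
  obtain ⟨z, hz, hzs⟩ := mem_closure_iff_nhds.mp (h1 y) s hs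
  obtain ⟨⟨k, rfl⟩, hk⟩ := hzs
  refine ⟨k, ?_, hz⟩
  by_contra hlt
  exact hk ⟨k, by simpa using hlt, rfl⟩

theorem main {V : Type u} [AddCommGroup V] [Module ℂ V] [FiniteDimensional ℂ V] (T : End ℂ V)
    (f : V →ₗ[ℂ] ℂ) (x : V) (hd : Dense (Set.range fun k : ℕ => f ((T ^ k) x))) :
    C1 T ∨ C2 T ∨ C3 T ∨ C4 T := by
  classical
  by_contra hcon
  push Not at hcon
  obtain ⟨nC1, nC2, nC3, nC4⟩ := hcon
  -- the relevant eigenvalues
  set L : Finset ℂ := T.finite_hasEigenvalue.toFinset.filter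
    (fun μ => 1 < ‖μ‖ ∨ (‖μ‖ = 1 ∧ JordanAt T μ)) with hL
  have memL : ∀ μ, μ ∈ L ↔ T.HasEigenvalue μ ∧ (1 < ‖μ‖ ∨ (‖μ‖ = 1 ∧ JordanAt T μ)) := by
    intro μ; simp [hL]
  have hL1 : ∀ μ ∈ L, 1 ≤ ‖μ‖ := by
    intro μ hμ
    rcases ((memL μ).mp hμ).2 with h | h
    · exact h.le
    · exact h.1.ge
  have hL0 : ∀ μ ∈ L, μ ≠ 0 := by
    intro μ hμ h0
    have := hL1 μ hμ
    rw [h0, norm_zero] at this
    linarith
  obtain ⟨P, M, B, hB, hdec⟩ := decomposition T f x L hL0 (fun μ h1 h2 => (memL μ).mpr ⟨h1, h2⟩)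
  -- the common exponent
  let pr : (ℂ × ℂ) × Fin 3 → ℕ → Prop := fun i b =>
    (i.2 = 0 ∧ i.1.1 ^ b = i.1.2 ^ b) ∨ (i.2 = 1 ∧ ∃ e : ℤ, dir i.1.2 ^ b = dir i.1.1 ^ e) ∨
      (i.2 = 2 ∧ dir i.1.1 ^ b = 1)
  have hmono : ∀ i b j, pr i b → pr i (b * j) := by
    rintro i b j (⟨h1, h2⟩ | ⟨h1, e, h2⟩ | ⟨h1, h2⟩)
    · left; exact ⟨h1, by rw [pow_mul, pow_mul, h2]⟩
    · right; left
      refine ⟨h1, e * j, ?_⟩
      rw [pow_mul, h2, zpow_mul, zpow_natCast]
    · right; right; exact ⟨h1, by rw [pow_mul, h2, one_pow]⟩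
  obtain ⟨N, hN1, hN⟩ := exists_common ((L ×ˢ L) ×ˢ Finset.univ) pr hmono
  have hNa : ∀ l ∈ L, ∀ μ ∈ L, ∀ b, 1 ≤ b → l ^ b = μ ^ b → l ^ N = μ ^ N := by
    intro l hl μ hμ b hb h
    have := hN ((l, μ), 0) (by simp [hl, hμ]) ⟨b, hb, Or.inl ⟨rfl, h⟩⟩
    rcases this with ⟨-, h2⟩ | ⟨h1, -⟩ | ⟨h1, -⟩
    · exact h2
    · simp at h1
    · simp at h1
  have hNb : ∀ l ∈ L, ∀ μ ∈ L, (∃ b, 1 ≤ b ∧ ∃ e : ℤ, dir μ ^ b = dir l ^ e) →
      ∃ e : ℤ, dir μ ^ N = dir l ^ e := by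
    rintro l hl μ hμ ⟨b, hb, h⟩
    have := hN ((l, μ), 1) (by simp [hl, hμ]) ⟨b, hb, Or.inr (Or.inl ⟨rfl, h⟩)⟩
    rcases this with ⟨h1, -⟩ | ⟨-, h2⟩ | ⟨h1, -⟩
    · simp at h1
    · exact h2
    · simp at h1
  have hNc : ∀ l ∈ L, ∀ b, 1 ≤ b → dir l ^ b = 1 → dir l ^ N = 1 := by
    intro l hl b hb h
    have := hN ((l, l), 2) (by simp [hl]) ⟨b, hb, Or.inr (Or.inr ⟨rfl, h⟩)⟩
    rcases this with ⟨h1, -⟩ | ⟨h1, -⟩ | ⟨-, h2⟩
    · simp at h1
    · simp at h1
    · exact h2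
  have hNpos : N ≠ 0 := by omega
  -- each residue class
  have class_alg : ∀ c : ℕ, AlgClusters (fun m => ∑ μ ∈ L, μ ^ (N * m + c) *
      (P μ).eval ((N * m + c : ℕ) : ℂ)) := by
    intro c
    let R : ℂ → ℂ[X] := fun v => ∑ μ ∈ L.filter (fun μ => μ ^ N = v),
      C (μ ^ c) * (P μ).comp (C (N : ℂ) * X + C (c : ℂ))
    set NN : Finset ℂ := L.image (fun μ => μ ^ N) with hNN
    have hU : (fun m : ℕ => ∑ μ ∈ L, μ ^ (N * m + c) * (P μ).eval ((N * m + c : ℕ) : ℂ))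
        = fun m : ℕ => ∑ v ∈ NN, v ^ m * (R v).eval (m : ℂ) := by
      funext m
      rw [← Finset.sum_fiberwise_of_maps_to (s := L) (t := NN) (g := fun μ => μ ^ N)
        (fun μ hμ => Finset.mem_image_of_mem _ hμ)]
      refine Finset.sum_congr rfl fun v _ => ?_
      simp only [R, eval_finsetSum, Finset.mul_sum]
      refine Finset.sum_congr rfl fun μ hμ => ?_
      have hv := (Finset.mem_filter.mp hμ).2
      rw [← hv]
      simp only [eval_mul, eval_C, eval_comp, eval_add, eval_X]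
      push_cast
      rw [pow_add, pow_mul]
      ring
    rw [hU]
    by_cases hall : ∀ v ∈ NN, R v = 0
    · exact algClusters_of_freq NN R 1 (by simp) fun v hv h => absurd (hall v hv) h
    push Not at hall
    set NN' := NN.filter (fun v => R v ≠ 0) with hNN'
    have hne : NN'.Nonempty := by
      obtain ⟨v, hv, h⟩ := hall
      exact ⟨v, Finset.mem_filter.mpr ⟨hv, h⟩⟩
    obtain ⟨v0, hv0, hmax⟩ := NN'.exists_max_image (fun v => ‖v‖) hne
    obtain ⟨hv0N, hRv0⟩ := Finset.mem_filter.mp hv0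
    obtain ⟨l0, hl0, hl0v⟩ := Finset.mem_image.mp hv0N
    by_cases hA : 1 < ‖v0‖ ∧ ∀ u ∈ NN, u ≠ v0 → R u ≠ 0 → ‖u‖ < ‖v0‖
    · exact algClusters_of_dominant NN R v0 hv0N hA.1 hRv0 hA.2
    -- rank one
    have hrank : ∃ w : ℂ, ‖w‖ = 1 ∧ ∀ μ ∈ L, R (μ ^ N) ≠ 0 → ∃ e : ℤ, dir μ ^ N = w ^ e := by
      by_cases hbig : 1 < ‖v0‖
      · -- two frequencies of maximal modulus
        have : ∃ u ∈ NN, u ≠ v0 ∧ R u ≠ 0 ∧ ‖v0‖ ≤ ‖u‖ := by
          by_contra hcon
          apply hA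
          refine ⟨hbig, fun u hu hne hR => ?_⟩
          by_contra hle
          exact hcon ⟨u, hu, hne, hR, not_lt.mp hle⟩
        obtain ⟨v1, hv1N, hv1ne, hRv1, hle⟩ := this
        have hnorm : ‖v1‖ = ‖v0‖ := le_antisymm (hmax v1 (Finset.mem_filter.mpr ⟨hv1N, hRv1⟩)) hle
        obtain ⟨l1, hl1, hl1v⟩ := Finset.mem_image.mp hv1N
        have hnl : ‖l1‖ = ‖l0‖ := by
          have : ‖l1‖ ^ N = ‖l0‖ ^ N := by
            rw [← norm_pow, ← norm_pow, hl1v, hl0v, hnorm]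
          exact (pow_left_inj₀ (norm_nonneg _) (norm_nonneg _) hNpos).mp this
        have hl0big : 1 < ‖l0‖ := by
          by_contra hle'
          have : ‖v0‖ ≤ 1 := by
            rw [← hl0v]
            show ‖l0 ^ N‖ ≤ 1
            rw [norm_pow]
            exact pow_le_one₀ (norm_nonneg _) (not_lt.mp hle')
          linarith
        have hpow_ne : ∀ n : ℕ, 1 ≤ n → l0 ^ n ≠ l1 ^ n := by
          intro n hn h
          apply hv1ne
          rw [← hl0v, ← hl1v]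
          exact (hNa l0 hl0 l1 hl1 n hn h).symm
        have hinf01 : InfOrder (l0 / l1) := by
          intro n hn h
          rw [div_pow, div_eq_one_iff_eq (pow_ne_zero _ (hL0 l1 hl1))] at h
          exact hpow_ne n hn h
        have hinf10 : InfOrder (l1 / l0) := by
          intro n hn h
          rw [div_pow, div_eq_one_iff_eq (pow_ne_zero _ (hL0 l0 hl0))] at h
          exact hpow_ne n hn h.symm
        -- symmetric statement
        have sym : ∀ a ∈ L, ∀ b ∈ L, ‖a‖ = ‖b‖ → 1 < ‖b‖ → ‖a‖ = ‖l0‖ → InfOrder (a / b) →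
            InfOrder (dir a) → ∃ w : ℂ, ‖w‖ = 1 ∧ ∀ μ ∈ L, R (μ ^ N) ≠ 0 →
              ∃ e : ℤ, dir μ ^ N = w ^ e := by
          intro a ha b hb hab hb1 hal hinf hdir
          refine ⟨dir a, norm_dir (hL0 a ha), fun μ hμ hR => ?_⟩
          apply hNb a ha μ hμ
          have hμle : ‖μ‖ ≤ ‖b‖ := by
            have h1 := hmax (μ ^ N) (Finset.mem_filter.mpr
              ⟨Finset.mem_image_of_mem (fun μ => μ ^ N) hμ, hR⟩)
            have h2 : ‖μ‖ ^ N ≤ ‖b‖ ^ N := by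
              rw [← hab, hal, ← norm_pow, ← norm_pow]
              calc ‖μ ^ N‖ ≤ ‖v0‖ := h1
                _ = ‖l0 ^ N‖ := by rw [← hl0v]
            exact (pow_le_pow_iff_left₀ (norm_nonneg _) (norm_nonneg _) hNpos).mp h2
          have hnind : ¬ Indep (dir a) (dir μ) := by
            intro hind
            rcases lt_or_eq_of_le hμle with hlt | heq
            · rcases ((memL μ).mp hμ).2 with h1 | ⟨h1, hJ⟩
              · exact nC3 ⟨a, b, μ, ((memL a).mp ha).1, ((memL b).mp hb).1, ((memL μ).mp hμ).1,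
                  hab, hlt, h1, hinf, hind⟩
              · rw [dir_of_norm_one h1] at hind
                exact nC4 ⟨a, b, μ, ((memL a).mp ha).1, ((memL b).mp hb).1, h1, hJ, hab, hb1,
                  hinf, hind⟩
            · exact nC1 ⟨a, μ, ((memL a).mp ha).1, ((memL μ).mp hμ).1, hab.trans heq.symm,
                by rw [heq]; exact hb1, hind⟩
          exact dep_of_not_indep (dir_ne_zero (hL0 μ hμ)) hdir hnind
        by_cases h0 : InfOrder (dir l0)
        · exact sym l0 hl0 l1 hl1 hnl.symm (by rw [hnl]; exact hl0big) rfl hinf01 h0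
        by_cases h1 : InfOrder (dir l1)
        · exact sym l1 hl1 l0 hl0 hnl hl0big hnl hinf10 h1
        exfalso
        unfold InfOrder at h0 h1
        push Not at h0 h1
        obtain ⟨a, ha, hda⟩ := h0
        obtain ⟨b, hb, hdb⟩ := h1
        apply hpow_ne (a * b) (Nat.one_le_iff_ne_zero.mpr (by positivity))
        rw [eq_norm_mul_dir (hL0 l0 hl0), eq_norm_mul_dir (hL0 l1 hl1), mul_pow, mul_pow, hnl]
        congr 1
        rw [pow_mul, hda, one_pow, mul_comm a b, pow_mul, hdb, one_pow]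
      · -- everything on the unit circle
        have hunit : ∀ μ ∈ L, R (μ ^ N) ≠ 0 → ‖μ‖ = 1 ∧ JordanAt T μ := by
          intro μ hμ hR
          have h1 := hmax (μ ^ N) (Finset.mem_filter.mpr
              ⟨Finset.mem_image_of_mem (fun μ => μ ^ N) hμ, hR⟩)
          have h2 : ‖μ‖ ^ N ≤ 1 := by rw [← norm_pow]; exact h1.trans (not_lt.mp hbig)
          have h3 : ‖μ‖ ≤ 1 := by
            by_contra hgt
            have := one_lt_pow₀ (not_le.mp hgt) hNpos
            linarith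
          rcases ((memL μ).mp hμ).2 with h4 | h4
          · linarith
          · exact h4
        by_cases hex : ∃ a ∈ L, R (a ^ N) ≠ 0 ∧ InfOrder (dir a)
        · obtain ⟨a, ha, hRa, hinf⟩ := hex
          refine ⟨dir a, norm_dir (hL0 a ha), fun μ hμ hR => ?_⟩
          apply hNb a ha μ hμ
          obtain ⟨ha1, haJ⟩ := hunit a ha hRa
          obtain ⟨hμ1, hμJ⟩ := hunit μ hμ hR
          have hnind : ¬ Indep (dir a) (dir μ) := by
            intro hind
            rw [dir_of_norm_one ha1, dir_of_norm_one hμ1] at hind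
            exact nC2 ⟨a, μ, ha1, hμ1, hind, haJ, hμJ⟩
          exact dep_of_not_indep (dir_ne_zero (hL0 μ hμ)) hinf hnind
        · push Not at hex
          refine ⟨1, by simp, fun μ hμ hR => ⟨0, ?_⟩⟩
          have := hex μ hμ hR
          unfold InfOrder at this
          push Not at this
          obtain ⟨b, hb, hdb⟩ := this
          rw [hNc μ hμ b hb hdb, zpow_zero]
    obtain ⟨w, hw, hfreq⟩ := hrank
    refine algClusters_of_freq NN R w hw fun v hv hRv => ?_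
    obtain ⟨μ, hμ, rfl⟩ := Finset.mem_image.mp hv
    refine ⟨pow_ne_zero _ (hL0 μ hμ), ?_⟩
    obtain ⟨e, he⟩ := hfreq μ hμ hRv
    refine ⟨e, ?_⟩
    rw [← he, norm_pow]
    conv_lhs => rw [eq_norm_mul_dir (hL0 μ hμ), mul_pow]
    push_cast
    rfl
  -- conclusion
  choose K l hl hcl using class_alg
  obtain ⟨y, hy⟩ := exists_avoiding (Finset.range N) K l (fun q _ => hl q) M
  obtain ⟨F, hF, hFy⟩ := exists_ultrafilter_of_dense _ hd y
  -- the residue class
  obtain ⟨c, hcN, hc⟩ : ∃ c ∈ Finset.range N, ∀ᶠ k in (F : Filter ℕ), k % N = c := by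
    have h1 : (⋃ c ∈ (Finset.range N : Set ℕ), {k : ℕ | k % N = c}) ∈ F := by
      have : (⋃ c ∈ (Finset.range N : Set ℕ), {k : ℕ | k % N = c}) = Set.univ := by
        ext k
        simp only [Set.mem_iUnion, Finset.coe_range, Set.mem_Iio, Set.mem_ofPred_eq,
          exists_prop, Set.mem_univ, iff_true]
        exact ⟨k % N, Nat.mod_lt _ (by omega), rfl⟩
      rw [this]; exact univ_mem
    rw [Ultrafilter.finite_biUnion_mem_iff (Finset.finite_toSet _)] at h1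
    obtain ⟨c, hc, h⟩ := h1
    exact ⟨c, by simpa using hc, h⟩
  -- limit of the bounded part
  obtain ⟨b, hbM, hb⟩ : ∃ b ∈ Metric.closedBall (0 : ℂ) M, Tendsto B F (𝓝 b) := by
    have hcomp : IsCompact (Metric.closedBall (0 : ℂ) M) := isCompact_closedBall _ _
    have hmem : ∀ᶠ k in (F : Filter ℕ), B k ∈ Metric.closedBall (0 : ℂ) M :=
      Filter.Eventually.of_forall fun k => by simpa using hB k
    exact hcomp.ultrafilter_le_nhds (F.map B) (le_principal_iff.mpr hmem)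
  have hUF : Tendsto (fun k : ℕ => ∑ μ ∈ L, μ ^ k * (P μ).eval (k : ℂ)) F (𝓝 (y - b)) := by
    have := hFy.sub hb
    refine this.congr fun k => ?_
    rw [hdec k]; ring
  have hdiv : Tendsto (fun k : ℕ => k / N) F atTop :=
    (Nat.tendsto_div_const_atTop hNpos).mono_left hF
  have hfin := hcl c (F.map fun k => k / N) (y - b) hdiv (by
    rw [Ultrafilter.coe_map, tendsto_map'_iff]
    refine hUF.congr' ?_
    filter_upwards [hc] with k hk
    have : N * (k / N) + c = k := by rw [← hk]; exact Nat.div_add_mod k N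
    simp only [Function.comp_apply]
    rw [this])
  exact hy c hcN b (by simpa using hbM) hfin

end Aux

/-- Every weakly numerically hypercyclic operator on `ℂ^n` satisfies one of (C1)-(C4). -/
theorem result : ∀ (n : ℕ) (T : EuclideanSpace ℂ (Fin n) →L[ℂ] EuclideanSpace ℂ (Fin n)),
    WeaklyNumericallyHypercyclic T →
      C1 (T : End ℂ (EuclideanSpace ℂ (Fin n))) ∨ C2 (T : End ℂ (EuclideanSpace ℂ (Fin n))) ∨
      C3 (T : End ℂ (EuclideanSpace ℂ (Fin n))) ∨ C4 (T : End ℂ (EuclideanSpace ℂ (Fin n))) := by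
  rintro n T ⟨Y, _, _, _, J, S, ⟨y, g, -, -, -, hd⟩, hT⟩
  apply main (T : End ℂ (EuclideanSpace ℂ (Fin n))) ((g : Y →ₗ[ℂ] ℂ) ∘ₗ (J : EuclideanSpace ℂ (Fin n) →ₗ[ℂ] Y)) (J.symm y)
  have h1 : ∀ k : ℕ, J (((T : End ℂ (EuclideanSpace ℂ (Fin n))) ^ k) (J.symm y)) = (S ^ k) y := by
    intro k
    induction k with
    | zero => simp
    | succ k ih =>
      rw [pow_succ', Module.End.mul_apply, pow_succ']
      show J (T _) = S ((S ^ k) y)
      rw [hT, ih]
      simp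
  convert hd using 3 with k
  show g (J (((T : End ℂ (EuclideanSpace ℂ (Fin n))) ^ k) (J.symm y))) = _
  rw [h1]

end Pool.Agent.Results.MP_fe3f7a_an.Necessity
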